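import Pool.Agent.H242P3.Quot

/-!
Criteria for local finiteness for the exponents `2 ^ a * 3 ^ b * m`.

Proof in outline.  Let `X k` be the set of elements with `x ^ k = 1` and `T k` the subgroup
generated by `X k`.  If `d y ∈ X 4` for `d ∈ X 2`, `y ∈ X 4`, then `T 2 ⊆ X 4` by induction on
the number of factors, so `T 2` is locally finite by Sanov's theorem.  Suppose that `xy` or
`xy⁻¹` is in `X 4` for all `x, y ∈ X 4`.  For an involution `d` and `y ∈ X 4` the elements `dy`
and `(dy⁻¹)⁻¹` are conjugate, so the first hypothesis holds.  If `T l` is locally finite and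
`xy` or `xy⁻¹` is in `X (2 l)` for all `x, y ∈ X (2 l)`, then modulo `T l` the elements of
`X (2 l)` have order 1 or 2 and any two commute, so `T (2 l) / T l` is elementary abelian and
`T (2 l)` is locally finite.

Part (3) is by induction on the exponent: one factors out the subgroup generated by the
elements of order 3 (locally finite by the structure theorem of `Pool.Agent.H242P3.Struct`,
`Fin`: eighteen facts about two or three elements of order 3, proved by case trees with coset
enumerations replayed by the kernel) and then the subgroup generated by the involutions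
(of exponent dividing 4 by (1)).
-/

universe u

namespace Pool.Agent.Results.MP_073a0c_al.ProductOrQuotientCriteria

open Subgroup

/-- every group (in `Type u`) satisfying `x ^ m = 1` is locally finite -/
def LocFin (m : ℕ) : Prop :=
  ∀ (Q : Type u) [Group Q], (∀ q : Q, q ^ m = 1) → ∀ E : Subgroup Q, E.FG → Finite E

/-- Let `G` be a group.

(1) If `(dy)⁴ = 1` whenever `d² = y⁴ = 1`, then the subgroup generated by the involutions
satisfies `x⁴ = 1`; `G` is locally finite if it has exponent dividing `2m` for some `m` such that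
all groups of exponent dividing `m` are locally finite, in particular if it has exponent
dividing 8.

(2) Let `r ≥ 2` and suppose that for `2 ≤ j ≤ r` one of `xy`, `xy⁻¹` has order dividing `2 ^ j`
whenever `x`, `y` have order dividing `2 ^ j`.  Then the subgroup generated by the elements of
order dividing `2 ^ r` is locally finite; `G` is locally finite if it has exponent dividing
`2 ^ r * m` for some `m` such that all groups of exponent dividing `m` are locally finite; in
particular if it has exponent dividing `2 ^ (r + 2)` or `3 * 2 ^ r`.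

(3) Suppose that for every normal subgroup `N` of `G` the quotient `G / N` satisfies the
condition of (1), and for any two elements `x`, `y` of `G / N` with `x ^ 3 = y ^ 3 = 1` one of
`xy`, `xy⁻¹` has trivial cube.  If all groups of exponent dividing `m ≥ 1` are locally finite and
`G` has exponent dividing `2 ^ a * 3 ^ b * m`, then `G` is locally finite; in particular if it has
exponent dividing `2 ^ a * 3 ^ b`. -/
theorem result (G : Type u) [Group G] :
    ((∀ d y : G, d ^ 2 = 1 → y ^ 4 = 1 → (d * y) ^ 4 = 1) →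
      (∀ t ∈ Subgroup.closure {x : G | x ^ 2 = 1}, t ^ 4 = 1) ∧
      (∀ m : ℕ, LocFin.{u} m → (∀ g : G, g ^ (2 * m) = 1) →
        ∀ F : Subgroup G, F.FG → Finite F) ∧
      ((∀ g : G, g ^ 8 = 1) → ∀ F : Subgroup G, F.FG → Finite F)) ∧
    (∀ r : ℕ, 2 ≤ r →
      (∀ j : ℕ, 2 ≤ j → j ≤ r → ∀ x y : G, x ^ 2 ^ j = 1 → y ^ 2 ^ j = 1 →
        (x * y) ^ 2 ^ j = 1 ∨ (x * y⁻¹) ^ 2 ^ j = 1) →
      (∀ F : Subgroup G, F.FG → F ≤ Subgroup.closure {x : G | x ^ 2 ^ r = 1} → Finite F) ∧
      (∀ m : ℕ, LocFin.{u} m → (∀ g : G, g ^ (2 ^ r * m) = 1) →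
        ∀ F : Subgroup G, F.FG → Finite F) ∧
      ((∀ g : G, g ^ 2 ^ (r + 2) = 1) → ∀ F : Subgroup G, F.FG → Finite F) ∧
      ((∀ g : G, g ^ (3 * 2 ^ r) = 1) → ∀ F : Subgroup G, F.FG → Finite F)) ∧
    ((∀ N : Subgroup G, N.Normal →
        (∀ d y : G, d ^ 2 ∈ N → y ^ 4 ∈ N → (d * y) ^ 4 ∈ N) ∧
        (∀ x y : G, x ^ 3 ∈ N → y ^ 3 ∈ N → (x * y) ^ 3 ∈ N ∨ (x * y⁻¹) ^ 3 ∈ N)) →
      (∀ a b m : ℕ, 0 < m → LocFin.{u} m → (∀ g : G, g ^ (2 ^ a * 3 ^ b * m) = 1) →
        ∀ F : Subgroup G, F.FG → Finite F) ∧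
      (∀ a b : ℕ, (∀ g : G, g ^ (2 ^ a * 3 ^ b) = 1) →
        ∀ F : Subgroup G, F.FG → Finite F)) := by
  have conv : ∀ m : ℕ, LocFin.{u} m →
      ∀ (Q : Type u) [Group Q], Group.FG Q → (∀ q : Q, q ^ m = 1) → Finite Q := by
    intro m hLF Q _ hQ hq
    have h1 : Finite (⊤ : Subgroup Q) := hLF Q hq ⊤ (Group.fg_def.mp hQ)
    exact Finite.of_equiv _ (Subgroup.topEquiv (G := Q)).toEquiv
  refine ⟨fun h => ⟨fun t ht => H242.P3.Two.T2_exp4 h ht, ?_, ?_⟩, fun r hr hP => ?_, ?_⟩
  · intro m hLF hm F hF
    exact H242.P3.Two.fin_last 2 m (H242.P3.Two.lf_T2 h) (conv m hLF) hm F hF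
  · intro h8 F hF
    exact H242.P3.Two.fin_last 2 4 (H242.P3.Two.lf_T2 h)
      (fun Q _ hQ hq => H15.Struct.finite_exp4 hQ hq) h8 F hF
  · obtain ⟨r, rfl⟩ : ∃ r', r = r' + 1 := ⟨r - 1, by omega⟩
    have hT := H242.P3.Two.lf_T (G := G) r (by omega) hP
    refine ⟨fun F hF hFT => hT F hF hFT, ?_, ?_, ?_⟩
    · intro m hLF hm F hF
      exact H242.P3.Two.fin_last _ m hT (conv m hLF) hm F hF
    · intro h F hF
      refine H242.P3.Two.fin_last _ 4 hT
        (fun Q _ hQ hq => H15.Struct.finite_exp4 hQ hq) ?_ F hF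
      intro g
      have := h g
      rwa [pow_add (2 : ℕ) (r + 1) 2] at this
    · intro h F hF
      refine H242.P3.Two.fin_last _ 3 hT
        (fun Q _ hQ hq => H15.Struct.finite_exp3 hQ hq) ?_ F hF
      intro g
      rw [mul_comm]; exact h g
  · intro hN
    have hG : H242.P3.Two.Good G := fun N hn => ⟨(hN N hn).2, (hN N hn).1⟩
    have main : ∀ a b m : ℕ, 0 < m → LocFin.{u} m → (∀ g : G, g ^ (2 ^ a * 3 ^ b * m) = 1) →
        ∀ F : Subgroup G, F.FG → Finite F := by
      intro a b m hm hLF hg
      refine H242.P3.Two.good_three m hm hLF a b G hG ?_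
      intro g
      have := hg g
      rwa [show 3 ^ b * (2 ^ a * m) = 2 ^ a * 3 ^ b * m by ring]
    refine ⟨main, fun a b hg => main a b 1 one_pos ?_ (by simpa using hg)⟩
    intro Q _ hq E _
    have hs : Subsingleton Q := ⟨fun x y => by
      have hx := hq x
      have hy := hq y
      rw [pow_one] at hx hy
      rw [hx, hy]⟩
    infer_instance

end Pool.Agent.Results.MP_073a0c_al.ProductOrQuotientCriteria
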