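import Pool.Agent.H446R9.EY.Fin

/-!
Groups in which the product of any two elements of order dividing `5` has order dividing `3` or
`5`; finiteness for the exponent `15`.

Proof in outline.  Let `P` be the set of elements with `x ^ 5 = 1` and `T = ⟨P⟩`.  Two coset
enumerations show that the products of two elements of `P` form a subgroup, which is `T`; so all
elements of `T` have order dividing `3` or `5`.  Further coset enumerations, replayed by the
kernel, show that a product of two elements of order dividing `3` has order dividing `3`, so
that they form a normal subgroup `F` of exponent `3` of `T`.  If `F ≠ 1` then `T / F` acts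
freely on the centre of `F`, and an argument on rings of characteristic `3` graded by the
powers of an element of order `5` shows that `T / F` has order `5`.
-/

universe u

namespace Pool.Agent.Results.MP_073a0c_al.ProductsOfOrderFive

/-- Let `G` be a group in which the product of any two elements of order dividing `5` has order
dividing `3` or `5`, and let `T` be the subgroup generated by the elements of order dividing `5`.
Then every element of `T` has order dividing `3` or `5`, and either the product of any two
elements of order dividing `5` has order dividing `5`, or `T` has a subgroup `F` of index `5`,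
normal in `G` and of exponent dividing `3`, `T` is locally finite, and every finitely generated
subgroup of `G` satisfying `x ^ 15 = 1` is finite. -/
theorem result (G : Type u) [Group G]
    (h : ∀ x y : G, x ^ 5 = 1 → y ^ 5 = 1 → (x * y) ^ 3 = 1 ∨ (x * y) ^ 5 = 1) :
    (∀ g ∈ Subgroup.closure {x : G | x ^ 5 = 1}, g ^ 3 = 1 ∨ g ^ 5 = 1) ∧
      ((∀ x y : G, x ^ 5 = 1 → y ^ 5 = 1 → (x * y) ^ 5 = 1) ∨
        ((∃ F : Subgroup G, F.Normal ∧ F ≤ Subgroup.closure {x : G | x ^ 5 = 1} ∧
            F.relIndex (Subgroup.closure {x : G | x ^ 5 = 1}) = 5 ∧ ∀ s ∈ F, s ^ 3 = 1) ∧
          (∀ K : Subgroup G, K.FG → K ≤ Subgroup.closure {x : G | x ^ 5 = 1} → Finite K) ∧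
          ∀ K : Subgroup G, K.FG → (∀ g ∈ K, g ^ 15 = 1) → Finite K)) :=
  H446.EY.main53 h

end Pool.Agent.Results.MP_073a0c_al.ProductsOfOrderFive
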